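import Pool.Agent.Q41.AS.Ach

/-! The achievement set of the sequence `1/2, 1/(4+1), 1/8, 1/(16+1), 1/32, 1/(64+1), …` is a Cantor
set. -/

set_option autoImplicit false

open Q41.AS

namespace Pool.Agent.Results.MP_1e50ba_an.CantorSet

theorem result : IsCompact (E x) ∧ Nonempty (E x ≃ₜ cantorSet) ∧ interior (E x) = ∅ := by
  refine ⟨good.1, good.homeo, ?_⟩
  rw [Set.eq_empty_iff_forall_notMem]
  intro z hz
  rw [mem_interior_iff_mem_nhds, Metric.mem_nhds_iff] at hz
  obtain ⟨ε, hε, hsub⟩ := hz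
  obtain ⟨w, h1, h2, h3⟩ := good.2.2.2 (z - ε) (z + ε) (by linarith)
  apply h3
  apply hsub
  rw [Metric.mem_ball, Real.dist_eq, abs_lt]
  constructor <;> linarith

end Pool.Agent.Results.MP_1e50ba_an.CantorSet
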